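import Pool.Agent.Q32.Woven.Glue

namespace Q32Woven

open SimpleGraph

variable {V : Type}

theorem exists_idem [Finite V] (ψ : V → V) :
    ∃ m : ℕ, ∀ x, ψ^[m + 1] (ψ^[m + 1] x) = ψ^[m + 1] x := by
  obtain ⟨i, j, hne, hij⟩ := Finite.exists_ne_map_eq_of_infinite (fun n : ℕ => ψ^[n])
  wlog hlt : i < j generalizing i j
  · exact this j i hne.symm hij.symm (lt_of_le_of_ne (not_lt.1 hlt) hne.symm)
  obtain ⟨d, rfl⟩ := Nat.exists_eq_add_of_lt hlt
  have hij' : ψ^[i] = ψ^[i + d + 1] := hij
  have step : ∀ n, i ≤ n → ψ^[n + (d + 1)] = ψ^[n] := by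
    intro n hn
    obtain ⟨c, rfl⟩ := Nat.exists_eq_add_of_le hn
    rw [show i + c + (d + 1) = c + (i + d + 1) by ring, Function.iterate_add, ← hij',
      ← Function.iterate_add, Nat.add_comm]
  have steps : ∀ k n, i ≤ n → ψ^[n + k * (d + 1)] = ψ^[n] := by
    intro k
    induction k with
    | zero => intro n _; simp
    | succ k ih =>
      intro n hn
      rw [show n + (k + 1) * (d + 1) = (n + k * (d + 1)) + (d + 1) by ring,
        step _ (by omega), ih n hn]
  have hM : ∃ m, (i + 1) * (d + 1) = m + 1 := ⟨(i + 1) * (d + 1) - 1, by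
    have : 0 < (i + 1) * (d + 1) := by positivity
    omega⟩
  obtain ⟨m, hm⟩ := hM
  refine ⟨m, fun x => ?_⟩
  rw [← Function.iterate_add_apply, ← hm]
  have : i ≤ (i + 1) * (d + 1) := by nlinarith
  rw [steps (i + 1) ((i + 1) * (d + 1)) this]

/-- `p` is not a cut vertex. -/
def NonCut (G : SimpleGraph V) (p : V) : Prop :=
  ∀ C : Set V, p ∉ C → C.Nonempty → (∀ x ∈ C, ∀ y, G.Adj x y → y ≠ p → y ∈ C) →
    ∀ y, y ≠ p → y ∈ C

/-- connectivity through closed sets -/
def Conn (G : SimpleGraph V) : Prop :=
  ∀ C : Set V, C.Nonempty → (∀ x ∈ C, ∀ y, G.Adj x y → y ∈ C) → ∀ y, y ∈ C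

theorem Conn.of_connected {G : SimpleGraph V} (h : G.Connected) : Conn G := by
  intro C ⟨x, hx⟩ hC y
  obtain ⟨w⟩ := h.preconnected x y
  induction w with
  | nil => exact hx
  | cons hadj _ ih => exact ih (hC _ hx _ hadj)

theorem Fold.swap {G : SimpleGraph V} {p q : V} {K : Set V} {ψ : V → V} {τ : V → ℕ}
    (h : Fold G p q K ψ τ) : Fold G q p K ψ τ where
  hom := h.hom
  miss := fun x y hxy h' => h.miss y x hxy.symm ⟨h'.2, h'.1⟩
  inj := h.inj
  uniq := h.uniq
  same := h.same

theorem Fold.locInj {G : SimpleGraph V} {p q : V} {K : Set V} {ψ : V → V} {τ : V → ℕ}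
    (h : Fold G p q K ψ τ) {x y y' : V} (hx : ψ x ∉ K) (h1 : G.Adj x y) (h2 : G.Adj x y')
    (he : ψ y = ψ y') : y = y' := by
  by_cases hy : ψ y ∈ K
  · exact h.uniq y y' he hy
  · have hy' : ψ y' ∉ K := he ▸ hy
    exact h.inj y y' he ((h.same x y h1 hx hy).symm.trans (h.same x y' h2 hx hy'))

theorem Fold.homIter {G : SimpleGraph V} {p q : V} {K : Set V} {ψ : V → V} {τ : V → ℕ}
    (h : Fold G p q K ψ τ) (n : ℕ) : ∀ x y, G.Adj x y → G.Adj (ψ^[n] x) (ψ^[n] y) := by
  induction n with
  | zero => intro x y h; exact h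
  | succ n ih =>
    intro x y hxy
    rw [Function.iterate_succ_apply, Function.iterate_succ_apply]
    exact ih _ _ (h.hom x y hxy)

/-- walks leaving and re-entering `H` -/
structure HW (G : SimpleGraph V) (H : Set V) (n : ℕ) (z : ℕ → V) : Prop where
  two : 2 ≤ n
  s0 : z 0 ∈ H
  sn : z n ∈ H
  ne : z 0 ≠ z n
  out : ∀ i, 0 < i → i < n → z i ∉ H
  adj : ∀ i, i < n → G.Adj (z i) (z (i + 1))

theorem HW.rev {G : SimpleGraph V} {H : Set V} {n : ℕ} {z : ℕ → V} (h : HW G H n z) :
    HW G H n (fun i => z (n - i)) where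
  two := h.two
  s0 := by simpa using h.sn
  sn := by simpa using h.s0
  ne := by simpa using h.ne.symm
  out := fun i h0 hi => h.out (n - i) (by omega) (by omega)
  adj := fun i hi => by
    have := h.adj (n - (i + 1)) (by omega)
    rw [show n - (i + 1) + 1 = n - i by omega] at this
    exact this.symm

section core

variable {G : SimpleGraph V} {p q : V} {ψ : V → V} {τ : V → ℕ} {m : ℕ}

theorem core_aux [Finite V] (hpq : G.Adj p q) (hp : NonCut G p)
    (hf : Fold G p q {p, q} ψ τ)
    (hm : ∀ x, ψ^[m + 1] (ψ^[m + 1] x) = ψ^[m + 1] x)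
    (a : V) (haH : ψ^[m + 1] a = a) (ha : ψ a = p)
    (hb : ∀ b, ψ b = q → ψ^[m + 1] b ≠ b) : False := by
  classical
  set H : Set V := {x | ψ^[m + 1] x = x} with hH
  have F6 : ∀ x, ψ^[m + 1] x ∈ H := fun x => hm x
  have F2 : ∀ x, x ∈ H → ψ x ∈ H := by
    intro x hx
    change ψ^[m + 1] (ψ x) = ψ x
    rw [← Function.iterate_succ_apply, Function.iterate_succ_apply', show ψ^[m + 1] x = x from hx]
  have F3 : ∀ x y, x ∈ H → y ∈ H → ψ x = ψ y → x = y := by
    intro x y hx hy h
    have hx' : ψ^[m + 1] x = x := hx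
    have hy' : ψ^[m + 1] y = y := hy
    rw [← hx', ← hy', Function.iterate_succ_apply, Function.iterate_succ_apply, h]
  have F4 : ∀ x, x ∈ H → ∃ x', x' ∈ H ∧ ψ x' = x := by
    intro x hx
    have hx' : ψ^[m + 1] x = x := hx
    refine ⟨ψ^[m] x, ?_, ?_⟩
    · change ψ^[m + 1] (ψ^[m] x) = ψ^[m] x
      rw [← Function.iterate_add_apply, Nat.add_comm, Function.iterate_add_apply, hx']
    · rw [← Function.iterate_succ_apply' ψ m x, hx']
  have F5 : ∀ x y, x ∈ H → y ∈ H → G.Adj (ψ x) (ψ y) → G.Adj x y := by
    intro x y hx hy h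
    have hx' : ψ^[m + 1] x = x := hx
    have hy' : ψ^[m + 1] y = y := hy
    rw [← hx', ← hy', Function.iterate_succ_apply, Function.iterate_succ_apply]
    exact hf.homIter m _ _ h
  have hpH : p ∈ H := ha ▸ F2 a haH
  have hqH : q ∉ H := by
    intro hq
    obtain ⟨b, hbH, hbq⟩ := F4 q hq
    exact hb b hbq hbH
  have hpne : p ≠ q := hpq.ne
  have haU : ∀ x, ψ x = p → x = a := fun x hx =>
    hf.uniq x a (hx.trans ha.symm) (by rw [hx]; exact Or.inl rfl)
  have hpout : ∀ x, x ∉ H → ψ x ≠ p := fun x hx h => hx (haU x h ▸ haH)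
  have hqin : ∀ x, x ∈ H → ψ x ≠ q := fun x hx h => hb x h hx
  have hK : ∀ x, ψ x ≠ p → ψ x ≠ q → ψ x ∉ ({p, q} : Set V) := by
    intro x h1 h2 h
    rcases h with h | h
    · exact h1 h
    · exact h2 h
  have F8 : ∀ y x, y ∈ H → ψ y ≠ p → G.Adj y x → x ∉ H → ψ x ∉ H := by
    intro y x hy hyp hadj hx hψ
    obtain ⟨x', hx'H, hx'⟩ := F4 (ψ x) hψ
    have h1 : G.Adj y x' := F5 y x' hy hx'H (by rw [hx']; exact hf.hom y x hadj)
    have := hf.locInj (hK y hyp (hqin y hy)) hadj h1 hx'.symm
    exact hx (this ▸ hx'H)
  -- no walks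
  have noHW : ¬ ∃ n, ∃ z, HW G H n z := by
    intro hex
    let L := Nat.find hex
    have hL : ∃ z, HW G H L z := Nat.find_spec hex
    have hmin : ∀ n z, HW G H n z → L ≤ n := fun n z h => Nat.find_min' hex ⟨z, h⟩
    have IM : ∀ z, HW G H L z → ψ (z 0) ≠ p → ∀ s, (∀ i, 0 < i → i < s → ψ (z i) ≠ q) →
        ∀ j, 0 < j → j ≤ s → j < L → ψ (z j) ∉ H := by
      intro z hz h0 s hs j
      induction j using Nat.strong_induction_on with
      | _ j ih =>
        intro hj0 hjs hjL hψ
        have hall : ∀ i, i < j → ψ (z i) ≠ p ∧ ψ (z i) ≠ q := by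
          intro i hi
          rcases Nat.eq_zero_or_pos i with h | h
          · subst h
            exact ⟨h0, hqin _ hz.s0⟩
          · exact ⟨hpout _ (hz.out i h (by omega)), hs i h (by omega)⟩
        rcases Nat.lt_or_ge j 2 with hj2 | hj2
        · have : j = 1 := by omega
          subst this
          exact F8 (z 0) (z 1) hz.s0 h0 (hz.adj 0 (by omega)) (hz.out 1 (by omega) hjL) hψ
        · have hne : ψ (z 0) ≠ ψ (z j) := by
            intro he
            have hjK : ψ (z j) ≠ p ∧ ψ (z j) ≠ q := by
              rw [← he]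
              exact hall 0 (by omega)
            have hτ : ∀ i, i ≤ j → τ (z 0) = τ (z i) := by
              intro i
              induction i with
              | zero => intro _; rfl
              | succ i ihi =>
                intro hi
                rw [ihi (by omega)]
                have h1 := hall i (by omega)
                have h2 : ψ (z (i + 1)) ≠ p ∧ ψ (z (i + 1)) ≠ q := by
                  rcases Nat.lt_or_ge (i + 1) j with h | h
                  · exact hall _ h
                  · have : i + 1 = j := by omega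
                    rw [this]
                    exact hjK
                exact hf.same _ _ (hz.adj i (by omega)) (hK _ h1.1 h1.2) (hK _ h2.1 h2.2)
            have := hf.inj _ _ he (hτ j le_rfl)
            exact hz.out j hj0 hjL (this ▸ hz.s0)
          have hw : HW G H j (fun i => ψ (z i)) :=
            { two := hj2
              s0 := F2 _ hz.s0
              sn := hψ
              ne := hne
              out := fun i hi0 hij => ih i hij hi0 (by omega) (by omega)
              adj := fun i hi => hf.hom _ _ (hz.adj i (by omega)) }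
          have := hmin _ _ hw
          omega
    have B1 : ∀ z, HW G H L z → ψ (z 0) ≠ p → ∀ s, 0 < s → s < L → ψ (z s) = q →
        (∀ i, 0 < i → i < s → ψ (z i) ≠ q) → s = L - 1 := by
      intro z hz h0 s hs0 hsL hsq hs
      have him := IM z hz h0 s hs
      have hw : HW G H (s + 1) (fun i => if i ≤ s then ψ (z i) else p) :=
        { two := by omega
          s0 := by simpa using F2 _ hz.s0
          sn := by simpa using hpH
          ne := by simpa using h0
          out := fun i hi0 hi => by
            have : i ≤ s := by omega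
            simp only [this, if_true]
            exact him i hi0 this (by omega)
          adj := fun i hi => by
            have h1 : i ≤ s := by omega
            rcases Nat.lt_or_ge i s with h | h
            · have h2 : i + 1 ≤ s := by omega
              simp only [h1, h2, if_true]
              exact hf.hom _ _ (hz.adj i (by omega))
            · have h2 : ¬ (i + 1 ≤ s) := by omega
              have h3 : i = s := by omega
              simp only [h1, h2, if_true, if_false]
              rw [h3, hsq]
              exact hpq.symm }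
      have := hmin _ _ hw
      omega
    have B2 : ∀ z, HW G H L z → ψ (z 0) ≠ p → (∃ i, 0 < i ∧ i < L ∧ ψ (z i) = q) → L = 2 := by
      intro z hz h0 hexi
      let s := Nat.find hexi
      have hs : 0 < s ∧ s < L ∧ ψ (z s) = q := Nat.find_spec hexi
      have hsm : ∀ i, 0 < i → i < s → ψ (z i) ≠ q := by
        intro i hi0 his hq'
        exact Nat.find_min hexi his ⟨hi0, by omega, hq'⟩
      have hsL := B1 z hz h0 s hs.1 hs.2.1 hs.2.2 hsm
      have hzn : ψ (z L) ≠ p := by
        intro h
        have hadj := hz.adj s hs.2.1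
        rw [show s + 1 = L by omega] at hadj
        exact hf.miss _ _ hadj.symm ⟨h, hs.2.2⟩
      have := B1 _ hz.rev (by simpa using hzn) 1 (by omega) (by have := hz.two; omega)
        (by
          have : L - 1 = s := by omega
          simp only [this]
          exact hs.2.2) (by intro i h1 h2; omega)
      have := hz.two
      omega
    have B : ∀ z, HW G H L z → (∃ i, 0 < i ∧ i < L ∧ ψ (z i) = q) → L = 2 := by
      intro z hz hexi
      by_cases h0 : ψ (z 0) = p
      · have hn : ψ (z L) ≠ p := by
          intro h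
          exact hz.ne ((haU _ h0).trans (haU _ h).symm)
        obtain ⟨i, hi0, hiL, hiq⟩ := hexi
        exact B2 _ hz.rev (by simpa using hn) ⟨L - i, by omega, by omega, by
          simp only [show L - (L - i) = i by omega]
          exact hiq⟩
      · exact B2 z hz h0 hexi
    have A1 : ∀ z, HW G H L z → ψ (z 0) ≠ p → (∀ i, 0 < i → i < L → ψ (z i) ≠ q) →
        HW G H L (fun i => ψ (z i)) := by
      intro z hz h0 hno
      exact
        { two := hz.two
          s0 := F2 _ hz.s0
          sn := F2 _ hz.sn
          ne := fun h => hz.ne (F3 _ _ hz.s0 hz.sn h)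
          out := fun i hi0 hi => IM z hz h0 L hno i hi0 (le_of_lt hi) hi
          adj := fun i hi => hf.hom _ _ (hz.adj i hi) }
    have A : ∀ z, HW G H L z → (∀ i, 0 < i → i < L → ψ (z i) ≠ q) →
        HW G H L (fun i => ψ (z i)) := by
      intro z hz hno
      by_cases h0 : ψ (z 0) = p
      · have hn : ψ (z L) ≠ p := by
          intro h
          exact hz.ne ((haU _ h0).trans (haU _ h).symm)
        have h1 := A1 _ hz.rev (by simpa using hn) (fun i hi0 hi => hno (L - i) (by omega) (by omega))
        have h2 := h1.rev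
        have h3 : ∀ i, i ≤ L → L - (L - i) = i := fun i hi => by omega
        exact
          { two := hz.two
            s0 := F2 _ hz.s0
            sn := F2 _ hz.sn
            ne := fun h => hz.ne (F3 _ _ hz.s0 hz.sn h)
            out := fun i hi0 hi => by
              have := h2.out i hi0 hi
              simp only [h3 i (le_of_lt hi)] at this
              exact this
            adj := fun i hi => hf.hom _ _ (hz.adj i hi) }
      · exact A1 z hz h0 hno
    obtain ⟨z, hz⟩ := hL
    by_cases h2 : L = 2
    · -- D₂ argument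
      let D2 : V → Prop := fun x => x ∉ H ∧ ∃ y y', y ∈ H ∧ y' ∈ H ∧ y ≠ y' ∧ G.Adj x y ∧ G.Adj x y'
      have hz1 : D2 (z 1) := by
        refine ⟨hz.out 1 (by omega) (by omega), z 0, z 2, hz.s0, h2 ▸ hz.sn, h2 ▸ hz.ne, ?_, ?_⟩
        · exact (hz.adj 0 (by omega)).symm
        · exact hz.adj 1 (by omega)
      have hclosed : ∀ x, D2 x → D2 (ψ x) := by
        intro x ⟨hx, y, y', hy, hy', hne, h1, h1'⟩
        by_cases hxq : ψ x = q
        · have hyp : ψ y ≠ p := fun h => hf.miss y x h1.symm ⟨h, hxq⟩
          refine ⟨hxq ▸ hqH, p, ψ y, hpH, F2 y hy, hyp.symm, hxq ▸ hpq.symm, hf.hom x y h1⟩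
        · have hout : ψ x ∉ H := by
            by_cases hyp : ψ y = p
            · have hyp' : ψ y' ≠ p := fun h => hne ((haU y hyp).trans (haU y' h).symm)
              exact F8 y' x hy' hyp' h1'.symm hx
            · exact F8 y x hy hyp h1.symm hx
          exact ⟨hout, ψ y, ψ y', F2 y hy, F2 y' hy', fun h => hne (F3 y y' hy hy' h),
            hf.hom x y h1, hf.hom x y' h1'⟩
      have hiter : ∀ k, D2 (ψ^[k] (z 1)) := by
        intro k
        induction k with
        | zero => exact hz1
        | succ k ih => rw [Function.iterate_succ_apply']; exact hclosed _ ih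
      exact (hiter (m + 1)).1 (F6 _)
    · have hno : ∀ z, HW G H L z → ∀ i, 0 < i → i < L → ψ (z i) ≠ q := by
        intro z hz i hi0 hi hq'
        exact h2 (B z hz ⟨i, hi0, hi, hq'⟩)
      have hiter : ∀ k, HW G H L (fun i => ψ^[k] (z i)) := by
        intro k
        induction k with
        | zero => exact hz
        | succ k ih =>
          have := A _ ih (hno _ ih)
          simpa only [Function.iterate_succ_apply'] using this
      have := (hiter (m + 1)).out 1 (by omega) (by have := hz.two; omega)
      exact this (F6 _)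
  -- final step
  let C : Set V := {x | ∃ n, ∃ z : ℕ → V, z 0 = q ∧ z n = x ∧ (∀ i, i ≤ n → z i ∉ H) ∧
    ∀ i, i < n → G.Adj (z i) (z (i + 1))}
  have hCH : ∀ x ∈ C, x ∉ H := by
    rintro x ⟨n, z, _, hn, hz, _⟩
    exact hn ▸ hz n le_rfl
  have hC : ∀ y, y ≠ p → y ∈ C := by
    apply hp C
    · intro h
      exact hCH p h hpH
    · exact ⟨q, 0, fun _ => q, rfl, rfl, fun _ _ => hqH, fun i hi => absurd hi (by omega)⟩
    · rintro x ⟨n, z, hz0, hzn, hzo, hza⟩ y hxy hyp
      have hyH : y ∉ H := by
        intro hyH
        apply noHW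
        refine ⟨n + 2, fun i => if i = 0 then p else if i ≤ n + 1 then z (i - 1) else y, ?_⟩
        exact
          { two := by omega
            s0 := by simpa using hpH
            sn := by simpa using hyH
            ne := by simpa using hyp.symm
            out := fun i hi0 hi => by
              have h1 : ¬ (i = 0) := by omega
              have h2 : i ≤ n + 1 := by omega
              simp only [h1, h2, if_true, if_false]
              exact hzo _ (by omega)
            adj := fun i hi => by
              by_cases h1 : i = 0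
              · subst h1
                simp only [if_true]
                rw [if_neg (by omega), if_pos (by omega)]
                simp only [Nat.zero_add, Nat.sub_self]
                rw [hz0]
                exact hpq
              · have h2 : i ≤ n + 1 := by omega
                simp only [h1, h2, if_true, if_false]
                rw [if_neg (by omega)]
                by_cases h3 : i + 1 ≤ n + 1
                · rw [if_pos h3]
                  have := hza (i - 1) (by omega)
                  rw [show i - 1 + 1 = i + 1 - 1 by omega] at this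
                  exact this
                · rw [if_neg h3]
                  rw [show i - 1 = n by omega, hzn]
                  exact hxy }
      refine ⟨n + 1, fun i => if i ≤ n then z i else y, by simpa using hz0, by simp, ?_, ?_⟩
      · intro i hi
        by_cases h : i ≤ n
        · simp only [h, if_true]; exact hzo i h
        · simp only [h, if_false]; exact hyH
      · intro i hi
        have h1 : i ≤ n := by omega
        simp only [h1, if_true]
        by_cases h : i + 1 ≤ n
        · simp only [h, if_true]; exact hza i (by omega)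
        · simp only [h, if_false]
          rw [show i = n by omega, hzn]
          exact hxy
  have hadj := hf.homIter (m + 1) p q hpq
  by_cases h : ψ^[m + 1] p = p
  · have hne : ψ^[m + 1] q ≠ p := by
      intro h'
      rw [h, h'] at hadj
      exact hadj.ne rfl
    exact hCH _ (hC _ hne) (F6 q)
  · exact hCH _ (hC _ h) (F6 p)

end core

theorem noFold [Finite V] {G : SimpleGraph V} (hconn : Conn G) {p q : V} (hpq : G.Adj p q)
    (hp : NonCut G p) (hq : NonCut G q) {ψ : V → V} {τ : V → ℕ}
    (hf : Fold G p q {p, q} ψ τ) : False := by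
  obtain ⟨m, hm⟩ := exists_idem ψ
  have hswap : Fold G q p {q, p} ψ τ := by
    rw [Set.pair_comm]
    exact hf.swap
  -- not both
  have hboth : ∀ a b, ψ^[m + 1] a = a → ψ a = p → ψ^[m + 1] b = b → ψ b = q → False := by
    intro a b haH ha hbH hb
    have h1 : G.Adj (ψ^[m] p) (ψ^[m] q) := hf.homIter m _ _ hpq
    rw [← ha, ← hb, ← Function.iterate_succ_apply, ← Function.iterate_succ_apply, haH, hbH] at h1
    exact hf.miss a b h1 ⟨ha, hb⟩
  by_cases h1 : ∃ a, ψ^[m + 1] a = a ∧ ψ a = p
  · obtain ⟨a, haH, ha⟩ := h1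
    exact core_aux hpq hp hf hm a haH ha (fun b hb hbH => hboth a b haH ha hbH hb)
  by_cases h2 : ∃ b, ψ^[m + 1] b = b ∧ ψ b = q
  · obtain ⟨b, hbH, hb⟩ := h2
    exact core_aux hpq.symm hq hswap hm b hbH hb (fun a ha haH => hboth a b haH ha hbH hb)
  push Not at h1 h2
  -- neither: H is everything, contradiction
  set H : Set V := {x | ψ^[m + 1] x = x} with hH
  have F6 : ∀ x, ψ^[m + 1] x ∈ H := fun x => hm x
  have F2 : ∀ x, x ∈ H → ψ x ∈ H := by
    intro x hx
    change ψ^[m + 1] (ψ x) = ψ x
    rw [← Function.iterate_succ_apply, Function.iterate_succ_apply', show ψ^[m + 1] x = x from hx]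
  have F4 : ∀ x, x ∈ H → ∃ x', x' ∈ H ∧ ψ x' = x := by
    intro x hx
    have hx' : ψ^[m + 1] x = x := hx
    refine ⟨ψ^[m] x, ?_, ?_⟩
    · change ψ^[m + 1] (ψ^[m] x) = ψ^[m] x
      rw [← Function.iterate_add_apply, Nat.add_comm, Function.iterate_add_apply, hx']
    · rw [← Function.iterate_succ_apply' ψ m x, hx']
  have F5 : ∀ x y, x ∈ H → y ∈ H → G.Adj (ψ x) (ψ y) → G.Adj x y := by
    intro x y hx hy h
    have hx' : ψ^[m + 1] x = x := hx
    have hy' : ψ^[m + 1] y = y := hy
    rw [← hx', ← hy', Function.iterate_succ_apply, Function.iterate_succ_apply]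
    exact hf.homIter m _ _ h
  have hK : ∀ x, x ∈ H → ψ x ∉ ({p, q} : Set V) := by
    intro x hx h
    rcases h with h | h
    · exact h1 x hx h
    · exact h2 x hx h
  have F8 : ∀ y x, y ∈ H → G.Adj y x → x ∉ H → ψ x ∉ H := by
    intro y x hy hadj hx hψ
    obtain ⟨x', hx'H, hx'⟩ := F4 (ψ x) hψ
    have h1 : G.Adj y x' := F5 y x' hy hx'H (by rw [hx']; exact hf.hom y x hadj)
    have := hf.locInj (hK y hy) hadj h1 hx'.symm
    exact hx (this ▸ hx'H)
  have hall : ∀ y, y ∈ H := by
    apply hconn H ⟨_, F6 p⟩
    intro y hy x hadj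
    by_contra hx
    have hiter : ∀ k, ψ^[k] x ∉ H ∧ ∃ y, y ∈ H ∧ G.Adj y (ψ^[k] x) := by
      intro k
      induction k with
      | zero => exact ⟨hx, y, hy, hadj⟩
      | succ k ih =>
        obtain ⟨h3, y', hy', h4⟩ := ih
        rw [Function.iterate_succ_apply']
        exact ⟨F8 y' _ hy' h4 h3, ψ y', F2 y' hy', hf.hom _ _ h4⟩
    exact (hiter (m + 1)).1 (F6 x)
  obtain ⟨a, haH, ha⟩ := F4 p (hall p)
  exact h1 a haH ha

end Q32Woven
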