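import Mathlib

namespace Q32Woven

open SimpleGraph

/-- `C` is a copy of `G` in `F`: a subgraph of `F` isomorphic to `G`. -/
def IsCopy {V W : Type} (G : SimpleGraph V) (F : SimpleGraph W) (C : F.Subgraph) : Prop :=
  Nonempty (G ≃g C.coe)

/-- `G` is `k`-woven: for every finite graph `F` and every edge `uv` of `F` lying in all copies of
`G` in `F` there is a set `Y` of edges of `F` other than `uv`, each incident to `u` or `v`, at most
`k` of them incident to `u` and at most `k` incident to `v`, such that every copy of `G` in `F`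
contains an edge of `Y`. -/
def IsKWoven {V : Type} (G : SimpleGraph V) (k : ℕ) : Prop :=
  ∀ (W : Type) [Fintype W] [DecidableEq W] (F : SimpleGraph W) (u v : W), F.Adj u v →
    (∀ C : F.Subgraph, IsCopy G F C → C.Adj u v) →
    ∃ Y : Finset (Sym2 W), (∀ e ∈ Y, e ∈ F.edgeSet ∧ e ≠ s(u, v) ∧ (u ∈ e ∨ v ∈ e)) ∧
      (Y.filter (fun e => u ∈ e)).card ≤ k ∧ (Y.filter (fun e => v ∈ e)).card ≤ k ∧
      ∀ C : F.Subgraph, IsCopy G F C → ∃ e ∈ Y, e ∈ C.edgeSet

/-- `G` is woven if it is `k`-woven for some `k`. -/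
def IsWoven {V : Type} (G : SimpleGraph V) : Prop := ∃ k, IsKWoven G k

/-- `G` is a star `K_{1,s}` with `s ≥ 2` (at least three vertices, one of them adjacent to all
others, no other edges). -/
def IsStar {V : Type} [Fintype V] (G : SimpleGraph V) : Prop :=
  3 ≤ Fintype.card V ∧ ∃ c : V, ∀ x y, G.Adj x y ↔ (x ≠ y ∧ (x = c ∨ y = c))

open Classical in
/-- `G` is an `s`-suitable caterpillar: `s ≥ 1`, `G` is a tree consisting of a path `a c b` on
three vertices and at most `3 s - 1` further vertices, all of degree `1`, where `a` and `b` have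
degree exactly `s + 1` and `c` has degree at most `s + 1`. -/
def IsSuitableCaterpillar {V : Type} [Fintype V] (G : SimpleGraph V) (s : ℕ) : Prop :=
  1 ≤ s ∧ G.IsTree ∧ ∃ a c b : V, a ≠ b ∧ G.Adj a c ∧ G.Adj c b ∧
    (∀ x, x ≠ a → x ≠ c → x ≠ b → G.degree x = 1) ∧
    (Finset.univ.filter (fun x => x ≠ a ∧ x ≠ c ∧ x ≠ b)).card ≤ 3 * s - 1 ∧
    G.degree a = s + 1 ∧ G.degree b = s + 1 ∧ G.degree c ≤ s + 1

end Q32Woven
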