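import Pool.Agent.Q32.Woven.Tree

namespace Q32Woven

open SimpleGraph

variable {V : Type}

theorem star_contra {G : SimpleGraph V} (hconn : Conn G) (hint : HasInt G)
    (c : V) (hc : ∀ x, G.Adj c x → ∀ y, G.Adj x y → y = c) : False := by
  have hall : ∀ x, x = c ∨ G.Adj c x := by
    apply hconn {x | x = c ∨ G.Adj c x} ⟨c, Or.inl rfl⟩
    rintro x (hx | hx) y hxy
    · subst hx; exact Or.inr hxy
    · exact Or.inl (hc x hx y hxy)
  obtain ⟨u, v, u', v', h1, h2, h3, h4, h5⟩ := hint
  rcases hall u with hu | hu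
  · rcases hall v with hv | hv
    · rw [hu, hv] at h1; exact h1.ne rfl
    · exact h5 ((hc v hv v' h4).trans (hc v hv u h1.symm).symm)
  · exact h3 ((hc u hu u' h2).trans (hc u hu v h1).symm)

theorem suitable_of_depth2 [Fintype V] (G : SimpleGraph V) (hT : G.IsTree)
    (hdeg : ∀ x : V, ∃ y, G.Adj x y) (hw : IsWoven G) (hint : HasInt G)
    (a : V) (ha : Depth2 G a) : ∃ s, IsSuitableCaterpillar G s := by
  classical
  have hconn := Conn.of_connected hT.connected
  -- every vertex is `a`, a neighbour or a grandchild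
  have hall : ∀ x, x = a ∨ G.Adj a x ∨ ∃ x0, G.Adj a x0 ∧ G.Adj x0 x ∧ x ≠ a := by
    apply hconn {x | x = a ∨ G.Adj a x ∨ ∃ x0, G.Adj a x0 ∧ G.Adj x0 x ∧ x ≠ a}
      ⟨a, Or.inl rfl⟩
    rintro x (hx | hx | ⟨x0, h1, h2, h3⟩) y hxy
    · subst hx; exact Or.inr (Or.inl hxy)
    · by_cases hy : y = a
      · exact Or.inl hy
      · exact Or.inr (Or.inr ⟨x, hx, hxy, hy⟩)
    · have := ha x0 h1 x h2 h3 y hxy
      subst this
      exact Or.inr (Or.inl h1)
  -- neighbours of a are pairwise nonadjacent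
  have hind : ∀ x y, G.Adj a x → G.Adj a y → ¬ G.Adj x y := by
    intro x y hx hy hxy
    have := ha x hx y hxy hy.ne' a hy.symm
    exact hx.ne this
  let d : V → ℕ := fun x => ((G.neighborFinset x).erase a).card
  have hmem : ∀ x y, y ∈ (G.neighborFinset x).erase a ↔ G.Adj x y ∧ y ≠ a := by
    intro x y
    rw [Finset.mem_erase, mem_neighborFinset]
    exact and_comm
  have hdegd : ∀ x, G.Adj a x → G.degree x = d x + 1 := by
    intro x hx
    have h1 : a ∈ G.neighborFinset x := by rw [mem_neighborFinset]; exact hx.symm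
    have h2 := Finset.card_erase_add_one h1
    rw [card_neighborFinset_eq_degree] at h2
    exact h2.symm
  let A : Finset V := (G.neighborFinset a).filter (fun x => 1 ≤ d x)
  have hA : ∀ x, x ∈ A ↔ G.Adj a x ∧ 1 ≤ d x := by
    intro x
    rw [Finset.mem_filter, mem_neighborFinset]
  have hdpos : ∀ x, 1 ≤ d x ↔ ∃ y, G.Adj x y ∧ y ≠ a := by
    intro x
    rw [Nat.one_le_iff_ne_zero, Finset.card_ne_zero]
    constructor
    · rintro ⟨y, hy⟩; exact ⟨y, (hmem x y).1 hy⟩
    · rintro ⟨y, hy⟩; exact ⟨y, (hmem x y).2 hy⟩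
  have hAne : A.Nonempty := by
    obtain ⟨u, v, u', v', h1, h2, h3, h4, h5⟩ := hint
    rcases hall u with hu | hu | ⟨x0, e1, e2, e3⟩
    · subst hu
      exact ⟨v, (hA v).2 ⟨h1, (hdpos v).2 ⟨v', h4, h5⟩⟩⟩
    · by_cases hv : v = a
      · subst hv
        exact ⟨u, (hA u).2 ⟨hu, (hdpos u).2 ⟨u', h2, h3⟩⟩⟩
      · exact ⟨u, (hA u).2 ⟨hu, (hdpos u).2 ⟨v, h1, hv⟩⟩⟩
    · exact absurd ((ha x0 e1 u e2 e3 u' h2).trans (ha x0 e1 u e2 e3 v h1).symm) h3
  obtain ⟨x1, hx1A, hx1max⟩ := Finset.exists_max_image A d hAne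
  have hx1 := (hA x1).1 hx1A
  have hdmax : ∀ x, G.Adj a x → d x ≤ d x1 := by
    intro x hx
    by_cases h : 1 ≤ d x
    · exact hx1max x ((hA x).2 ⟨hx, h⟩)
    · omega
  -- the side of x1
  let B : Set V := {t | t = x1 ∨ (G.Adj x1 t ∧ t ≠ a)}
  have hBcl : ∀ x y, x ∈ B → G.Adj x y → ¬ (x = x1 ∧ y = a) → y ∈ B := by
    rintro x y (hx | ⟨hx, hxa⟩) hxy hno
    · subst hx
      exact Or.inr ⟨hxy, fun h => hno ⟨rfl, h⟩⟩
    · exact Or.inl (ha x1 hx1.1 x hx hxa y hxy)
  -- facts valid for each admissible K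
  have side : ∀ (K : Set V) (ψ : V → V) (τ : V → ℕ), Fold G a x1 K ψ τ → x1 ∈ K →
      ∀ x, ψ x ∉ B := by
    intro K ψ τ hf hx1K x hx
    have hcl : ∀ x y, ψ x ∈ B → G.Adj x y → ψ y ∈ B := by
      intro x y hx hxy
      refine hBcl _ _ hx (hf.hom _ _ hxy) ?_
      rintro ⟨h1, h2⟩
      exact hf.miss y x hxy.symm ⟨h2, h1⟩
    have hallB : ∀ x, ψ x ∈ B :=
      hconn {x | ψ x ∈ B} ⟨x, hx⟩ (fun x hx y hxy => hcl x y hx hxy)
    obtain ⟨u, v, u', v', h1, h2, h3, h4, h5⟩ := hint
    rcases hallB u with hu | ⟨hu, hua⟩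
    · rcases hallB v with hv | ⟨hv, hva⟩
      · exact (hf.hom _ _ h1).ne (hu.trans hv.symm)
      · have e1 := ha x1 hx1.1 _ hv hva _ (hf.hom _ _ h4)
        exact h5 (hf.uniq v' u (e1.trans hu.symm) (by rw [e1]; exact hx1K))
    · have e1 := ha x1 hx1.1 _ hu hua _ (hf.hom _ _ h1)
      have e2 := ha x1 hx1.1 _ hu hua _ (hf.hom _ _ h2)
      exact h3 (hf.uniq u' v (e2.trans e1.symm) (by rw [e2]; exact hx1K))
  -- first gluing
  have first : ∃ x2, G.Adj a x2 ∧ x2 ≠ x1 ∧ d x1 ≤ d x2 := by
    obtain ⟨ψ, τ, hf⟩ := glue G hdeg hw hx1.1 {a, x1} (Or.inl rfl) (Or.inr rfl)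
      (by
        rintro x (rfl | hx) h
        · exact absurd rfl h.ne
        · exact hx)
      (by
        rintro x (hx | rfl) h
        · exact hx
        · exact absurd rfl h.ne)
    have hB := side _ ψ τ hf (Or.inr rfl)
    have hnx1 : ∀ x, ψ x ≠ x1 := fun x h => hB x (Or.inl h)
    have hK : ∀ x, ψ x ≠ a → ψ x ∉ ({a, x1} : Set V) := by
      rintro x h1 (h | h)
      · exact h1 h
      · exact hnx1 x h
    have haex : ∃ a', ψ a' = a := by
      by_contra hno
      push Not at hno
      have main : ∀ u v u', G.Adj u v → G.Adj u u' → u' ≠ v →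
          (∃ x, G.Adj a x ∧ G.Adj x (ψ u) ∧ ψ u ≠ a) → False := by
        rintro u v u' huv huu' hne ⟨x, h1, h2, h3⟩
        have e1 := ha x h1 _ h2 h3 _ (hf.hom _ _ huv)
        have e2 := ha x h1 _ h2 h3 _ (hf.hom _ _ huu')
        exact hne (hf.locInj (hK u (hno u)) huu' huv (e2.trans e1.symm))
      obtain ⟨u, v, u', v', h1, h2, h3, h4, h5⟩ := hint
      rcases hall (ψ u) with h | h | h
      · exact hno u h
      · rcases hall (ψ v) with h' | h' | h'
        · exact hno v h'
        · exact hind _ _ h h' (hf.hom _ _ h1)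
        · exact main v u v' h1.symm h4 h5 h'
      · exact main u v u' h1 h2 h3 h
    obtain ⟨a', ha'⟩ := haex
    have huniq : ∀ y, ψ y = a → y = a' := fun y hy =>
      hf.uniq y a' (hy.trans ha'.symm) (by rw [hy]; exact Or.inl rfl)
    have hNa' : ∀ x, G.Adj a' x → G.Adj a (ψ x) := fun x hx => ha' ▸ hf.hom _ _ hx
    have hd2 : Depth2 G a' := by
      intro x hx y hxy hya y' hyy'
      have h1 := hNa' x hx
      have h3 : ψ y ≠ a := fun h => hya (huniq y h)
      have h4 := ha (ψ x) h1 (ψ y) (hf.hom _ _ hxy) h3 (ψ y') (hf.hom _ _ hyy')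
      exact hf.locInj (hK y h3) hyy' hxy.symm h4
    -- two elements of A
    have hr2 : ∃ x1', x1' ∈ A ∧ x1' ≠ x1 := by
      by_contra hno
      push Not at hno
      apply star_contra hconn hint a'
      intro x hx y hxy
      have h1 := hNa' x hx
      by_contra hya
      have h3 : ψ y ≠ a := fun h => hya (huniq y h)
      have : ψ x ∈ A := (hA _).2 ⟨h1, (hdpos _).2 ⟨ψ y, hf.hom _ _ hxy, h3⟩⟩
      exact hnx1 x (hno _ this)
    obtain ⟨x1', hx1'A, hne⟩ := hr2
    have hx1' := (hA x1').1 hx1'A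
    have haa : a' = a := by
      rcases hall a' with h | h | ⟨x0, h1, h2, h3⟩
      · exact h
      · exfalso
        have hleaf : ∀ x, G.Adj a x → x ≠ a' → ∀ y', G.Adj x y' → y' = a :=
          fun x hx hxa' => hd2 a h.symm x hx hxa'
        have : ∃ x, x ∈ A ∧ x ≠ a' := by
          by_cases h' : x1 = a'
          · exact ⟨x1', hx1'A, fun h'' => hne (h''.trans h'.symm)⟩
          · exact ⟨x1, hx1A, h'⟩
        obtain ⟨x, hxA, hxa'⟩ := this
        obtain ⟨hx, hdx⟩ := (hA x).1 hxA
        obtain ⟨y, hy, hya⟩ := (hdpos x).1 hdx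
        exact hya (hleaf x hx hxa' y hy)
      · exfalso
        have hx0 : G.Adj a' x0 := h2.symm
        have h4 := hd2 x0 hx0 a h1.symm (fun h => h3 h.symm)
        exact hne ((h4 x1' hx1'.1).trans (h4 x1 hx1.1).symm)
    subst haa
    refine ⟨ψ x1, hNa' x1 hx1.1, hnx1 x1, ?_⟩
    apply Finset.card_le_card_of_injOn ψ
    · intro y hy
      have hy' := (hmem x1 y).1 (Finset.mem_coe.1 hy)
      exact Finset.mem_coe.2 ((hmem _ _).2 ⟨hf.hom _ _ hy'.1, fun h => hy'.2 (huniq y h)⟩)
    · intro y hy y' hy' h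
      have e1 := (hmem x1 y).1 (Finset.mem_coe.1 hy)
      have e2 := (hmem x1 y').1 (Finset.mem_coe.1 hy')
      refine hf.locInj (hK x1 ?_) e1.1 e2.1 h
      exact (hNa' x1 hx1.1).ne'
  obtain ⟨x2, hax2, hx21, hd12⟩ := first
  have hd2 : d x2 = d x1 := le_antisymm (hdmax x2 hax2) hd12
  set s := d x1 with hs
  have hs1 : 1 ≤ s := hx1.2
  have hx2A : x2 ∈ A := (hA x2).2 ⟨hax2, by omega⟩
  -- second gluing
  have hζ : ∀ x, ∃ y, x ∈ A → (G.Adj x y ∧ y ≠ a) := by
    intro x
    by_cases h : x ∈ A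
    · obtain ⟨y, hy⟩ := (hdpos x).1 ((hA x).1 h).2
      exact ⟨y, fun _ => hy⟩
    · exact ⟨x, fun h' => absurd h' h⟩
  choose ζ hζ using hζ
  have hζnb : ∀ x, x ∈ A → ∀ y, G.Adj (ζ x) y → y = x := fun x hx y hy =>
    ha x ((hA x).1 hx).1 (ζ x) (hζ x hx).1 (hζ x hx).2 y hy
  let K : Set V := {k | k = a ∨ k = x1 ∨ ∃ x, x ∈ A ∧ x ≠ x1 ∧ k = ζ x}
  obtain ⟨ψ, τ, hf⟩ := glue G hdeg hw hx1.1 K (Or.inl rfl) (Or.inr (Or.inl rfl))
    (by
      rintro x (rfl | hx | ⟨x', hx', _, rfl⟩) h
      · exact absurd rfl h.ne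
      · exact hx
      · exact absurd (hζnb x' hx' a h.symm) ((hA x').1 hx').1.ne)
    (by
      rintro x (hx | rfl | ⟨x', hx', hne, rfl⟩) h
      · exact hx
      · exact absurd rfl h.ne
      · exact absurd (hζnb x' hx' x1 h.symm).symm hne)
  have hB := side _ ψ τ hf (Or.inr (Or.inl rfl))
  have hnx1 : ∀ x, ψ x ≠ x1 := fun x h => hB x (Or.inl h)
  have haK : a ∈ K := Or.inl rfl
  have huniq : ∀ y y', ψ y = a → ψ y' = a → y = y' := fun y y' hy hy' =>
    hf.uniq y y' (hy.trans hy'.symm) (by rw [hy]; exact haK)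
  -- children of a other than x1 are not in K
  have hchK : ∀ x, G.Adj a x → x ≠ x1 → x ∉ K := by
    rintro x hx hxx (h | h | ⟨x', hx', _, h⟩)
    · exact hx.ne' h
    · exact hxx h
    · subst h
      exact ((hA x').1 hx').1.ne (hζnb x' hx' a hx.symm)
  have hgoal : G.degree a ≤ s + 1 ∧ ∀ x ∈ A, x = x1 ∨ x = x2 := by
    rcases hall (ψ a) with h | h | ⟨x, h1, h2, h3⟩
    · -- ψ a = a
      exfalso
      let As := (G.neighborFinset a).filter (fun x => d x = s)
      have hAs : ∀ x, x ∈ As ↔ G.Adj a x ∧ d x = s := by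
        intro x
        rw [Finset.mem_filter, mem_neighborFinset]
      have hNa : ∀ x, G.Adj a x → G.Adj a (ψ x) := fun x hx => by
        have := hf.hom _ _ hx
        rwa [h] at this
      have step : ∀ x, x ∈ As → ψ x ∈ As ∧ ∃ y, G.Adj x y ∧ y ≠ a ∧ ψ y = ζ (ψ x) := by
        intro x hx
        obtain ⟨hx1', hx2'⟩ := (hAs x).1 hx
        have hax := hNa x hx1'
        have hxK : ψ x ∉ K := hchK _ hax (hnx1 x)
        have hsub : ((G.neighborFinset x).erase a).image ψ ⊆ (G.neighborFinset (ψ x)).erase a := by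
          intro y hy
          obtain ⟨y0, hy0, rfl⟩ := Finset.mem_image.1 hy
          have hy0' := (hmem _ _).1 hy0
          refine (hmem _ _).2 ⟨hf.hom _ _ hy0'.1, fun h' => hy0'.2 (huniq y0 a h' h)⟩
        have hcard : (((G.neighborFinset x).erase a).image ψ).card = d x := by
          apply Finset.card_image_of_injOn
          intro y hy y' hy' he
          have e1 := (hmem x y).1 (Finset.mem_coe.1 hy)
          have e2 := (hmem x y').1 (Finset.mem_coe.1 hy')
          exact hf.locInj hxK e1.1 e2.1 he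
        have hle := Finset.card_le_card hsub
        rw [hcard] at hle
        have hle' : d x ≤ d (ψ x) := hle
        have hmx := hdmax _ hax
        have hds : d (ψ x) = s := by omega
        have heq : ((G.neighborFinset x).erase a).image ψ = (G.neighborFinset (ψ x)).erase a := by
          apply Finset.eq_of_subset_of_card_le hsub
          rw [hcard]
          change d (ψ x) ≤ d x
          omega
        refine ⟨(hAs _).2 ⟨hax, hds⟩, ?_⟩
        have hψA : ψ x ∈ A := (hA _).2 ⟨hax, by omega⟩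
        have : ζ (ψ x) ∈ ((G.neighborFinset x).erase a).image ψ := by
          rw [heq]
          exact (hmem _ _).2 (hζ _ hψA)
        obtain ⟨y, hy, hye⟩ := Finset.mem_image.1 this
        have hy' := (hmem _ _).1 hy
        exact ⟨y, hy'.1, hy'.2, hye⟩
      have hinj : Set.InjOn ψ (As : Set V) := by
        intro x hx x' hx' he
        have hx0 := (hAs x).1 (Finset.mem_coe.1 hx)
        have hx0' := (hAs x').1 (Finset.mem_coe.1 hx')
        obtain ⟨g1, y, hy1, hy2, hy3⟩ := step x (Finset.mem_coe.1 hx)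
        obtain ⟨_, y', hy1', hy2', hy3'⟩ := step x' (Finset.mem_coe.1 hx')
        have hψA : ψ x ∈ A := (hA _).2 ⟨((hAs _).1 g1).1, by have := ((hAs _).1 g1).2; omega⟩
        have hyy : y = y' := by
          apply hf.uniq y y' (hy3.trans (by rw [hy3', he]))
          rw [hy3]
          exact Or.inr (Or.inr ⟨ψ x, hψA, hnx1 x, rfl⟩)
        subst hyy
        exact (ha x hx0.1 y hy1 hy2 x' hy1'.symm).symm
      have hx1As : x1 ∈ As := (hAs x1).2 ⟨hx1.1, rfl⟩
      have h1 := Finset.card_le_card_of_injOn (s := As) (t := As.erase x1) ψ (by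
        intro x hx
        exact Finset.mem_coe.2 (Finset.mem_erase.2 ⟨hnx1 x, (step x (Finset.mem_coe.1 hx)).1⟩))
        hinj
      have h2 := Finset.card_erase_lt_of_mem hx1As
      omega
    · -- ψ a = x a child of a
      have hxx1 := hnx1 a
      have hxK : ψ a ∉ K := hchK _ h hxx1
      have hinjN : ∀ y y', G.Adj a y → G.Adj a y' → ψ y = ψ y' → y = y' :=
        fun y y' h1 h2 he => hf.locInj hxK h1 h2 he
      refine ⟨?_, ?_⟩
      · have h1 : G.degree a ≤ G.degree (ψ a) := by
          rw [← card_neighborFinset_eq_degree, ← card_neighborFinset_eq_degree]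
          apply Finset.card_le_card_of_injOn ψ
          · intro y hy
            have : G.Adj a y := by simpa using hy
            simpa using hf.hom _ _ this
          · intro y hy y' hy' he
            exact hinjN y y' (by simpa using hy) (by simpa using hy') he
        have h2 := hdegd _ h
        have h3 := hdmax _ h
        omega
      · -- A has at most two elements
        have key : ∀ x' ∈ A, ψ x' = a ∨ ψ x' = ζ (ψ a) := by
          intro x' hx'
          obtain ⟨hx'a, hdx'⟩ := (hA x').1 hx'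
          obtain ⟨y, hy, hya⟩ := (hdpos x').1 hdx'
          by_contra hno
          push Not at hno
          have hadj : G.Adj (ψ a) (ψ x') := hf.hom _ _ hx'a
          have hnb := ha (ψ a) h (ψ x') hadj hno.1
          have hψaA : ψ a ∈ A := (hA _).2 ⟨h, (hdpos _).2 ⟨ψ x', hadj, hno.1⟩⟩
          have hnK : ψ x' ∉ K := by
            rintro (h' | h' | ⟨x'', hx'', _, h'⟩)
            · exact hno.1 h'
            · exact hnx1 _ h'
            · have h5 : ψ a = x'' := hζnb x'' hx'' (ψ a) (by rw [← h']; exact hadj.symm)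
              rw [← h5] at h'
              exact hno.2 h'
          have e1 := hnb (ψ y) (hf.hom _ _ hy)
          exact hya (hf.locInj hnK hy hx'a.symm e1)
        intro x hx
        by_contra hno
        push Not at hno
        have hxa := ((hA x).1 hx).1
        rcases key x hx with e | e <;> rcases key x1 hx1A with e1 | e1 <;>
          rcases key x2 hx2A with e2 | e2
        · exact hno.1 (hinjN _ _ hxa hx1.1 (e.trans e1.symm))
        · exact hno.1 (hinjN _ _ hxa hx1.1 (e.trans e1.symm))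
        · exact hno.2 (hinjN _ _ hxa hax2 (e.trans e2.symm))
        · exact hx21 (hinjN _ _ hax2 hx1.1 (e2.trans e1.symm))
        · exact hx21 (hinjN _ _ hax2 hx1.1 (e2.trans e1.symm))
        · exact hno.2 (hinjN _ _ hxa hax2 (e.trans e2.symm))
        · exact hno.1 (hinjN _ _ hxa hx1.1 (e.trans e1.symm))
        · exact hno.1 (hinjN _ _ hxa hx1.1 (e.trans e1.symm))
    · -- ψ a a grandchild
      exfalso
      have hnb := ha x h1 (ψ a) h2 h3
      have e1 : ψ x1 = x := hnb _ (hf.hom _ _ hx1.1)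
      have e2 : ψ x2 = x := hnb _ (hf.hom _ _ hax2)
      have hxx1 : x ≠ x1 := fun h => hnx1 x1 (e1.trans h)
      have hxK : x ∉ K := hchK x h1 hxx1
      have surj : ∀ t, G.Adj a t → d t = s → ψ t = x → ∃ y, G.Adj t y ∧ y ≠ a ∧ ψ y = a := by
        intro t hat hdt ht
        have hsub : (G.neighborFinset t).image ψ ⊆ G.neighborFinset x := by
          intro y hy
          obtain ⟨y0, hy0, rfl⟩ := Finset.mem_image.1 hy
          rw [mem_neighborFinset] at hy0 ⊢
          rw [← ht]
          exact hf.hom _ _ hy0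
        have hcard : ((G.neighborFinset t).image ψ).card = G.degree t := by
          rw [← card_neighborFinset_eq_degree]
          apply Finset.card_image_of_injOn
          intro y hy y' hy' he
          exact hf.locInj (by rw [ht]; exact hxK) (by simpa using hy) (by simpa using hy') he
        have hle : G.degree x ≤ G.degree t := by
          rw [hdegd x h1, hdegd t hat, hdt]
          have := hdmax x h1
          omega
        have heq : (G.neighborFinset t).image ψ = G.neighborFinset x := by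
          apply Finset.eq_of_subset_of_card_le hsub
          rw [hcard, card_neighborFinset_eq_degree]
          exact hle
        have : a ∈ (G.neighborFinset t).image ψ := by
          rw [heq, mem_neighborFinset]
          exact h1.symm
        obtain ⟨y, hy, hya⟩ := Finset.mem_image.1 this
        rw [mem_neighborFinset] at hy
        refine ⟨y, hy, ?_, hya⟩
        rintro rfl
        exact h3 hya
      obtain ⟨y, hy1, hy2, hy3⟩ := surj x1 hx1.1 rfl e1
      obtain ⟨y', hy1', hy2', hy3'⟩ := surj x2 hax2 hd2 e2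
      have hyy := huniq y y' hy3 hy3'
      subst hyy
      exact hx21 (ha x1 hx1.1 y hy1 hy2 x2 hy1'.symm)
  -- conclusion
  obtain ⟨hdega, hA2⟩ := hgoal
  have hdeg1 : ∀ x, x ≠ x1 → x ≠ a → x ≠ x2 → G.degree x = 1 := by
    intro x h1 h2 h3
    rcases hall x with h | h | ⟨x0, e1, e2, e3⟩
    · exact absurd h h2
    · have hd0 : d x = 0 := by
        by_contra hne
        rcases hA2 x ((hA x).2 ⟨h, Nat.one_le_iff_ne_zero.2 hne⟩) with h' | h'
        · exact h1 h'
        · exact h3 h'
      rw [hdegd x h, hd0]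
    · rw [degree_eq_one_iff_existsUnique_adj]
      exact ⟨x0, e2.symm, fun y hy => ha x0 e1 x e2 e3 y hy⟩
  have hdx1 : G.degree x1 = s + 1 := hdegd x1 hx1.1
  have hdx2 : G.degree x2 = s + 1 := by rw [hdegd x2 hax2, hd2]
  refine ⟨s, hs1, hT, x1, a, x2, hx21.symm, hx1.1.symm, hax2, ?_, ?_, ?_, ?_, ?_⟩
  · intro x h1 h2 h3
    convert hdeg1 x h1 h2 h3
  · -- counting
    let O := Finset.univ.filter (fun x => x ≠ x1 ∧ x ≠ a ∧ x ≠ x2)
    have hsum := G.sum_degrees_eq_twice_card_edges
    have hE := hT.card_edgeFinset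
    have hx1a : x1 ≠ a := hx1.1.ne'
    have hx2a : x2 ≠ a := hax2.ne'
    have hnot : Finset.univ.filter (fun x => ¬ (x ≠ x1 ∧ x ≠ a ∧ x ≠ x2)) = {x1, a, x2} := by
      ext x
      simp only [Finset.mem_filter, Finset.mem_univ, true_and, Finset.mem_insert,
        Finset.mem_singleton]
      tauto
    have hsplit := Finset.sum_filter_add_sum_filter_not (Finset.univ : Finset V)
      (fun x => x ≠ x1 ∧ x ≠ a ∧ x ≠ x2) (fun x => G.degree x)
    have hO : ∑ x ∈ Finset.univ.filter (fun x => x ≠ x1 ∧ x ≠ a ∧ x ≠ x2), G.degree x =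
        (Finset.univ.filter (fun x => x ≠ x1 ∧ x ≠ a ∧ x ≠ x2)).card := by
      rw [Finset.card_eq_sum_ones]
      apply Finset.sum_congr rfl
      intro x hx
      rw [Finset.mem_filter] at hx
      exact hdeg1 x hx.2.1 hx.2.2.1 hx.2.2.2
    have h3 : ∑ x ∈ Finset.univ.filter (fun x => ¬ (x ≠ x1 ∧ x ≠ a ∧ x ≠ x2)), G.degree x =
        (s + 1) + (G.degree a + (s + 1)) := by
      rw [hnot, Finset.sum_insert (by simp [hx1a, hx21.symm]), Finset.sum_insert (by
        simp [hx2a.symm]), Finset.sum_singleton, hdx1, hdx2]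
    have hcardsplit := Finset.card_filter_add_card_filter_not (s := (Finset.univ : Finset V))
      (fun x => x ≠ x1 ∧ x ≠ a ∧ x ≠ x2)
    have hc3 : (Finset.univ.filter (fun x => ¬ (x ≠ x1 ∧ x ≠ a ∧ x ≠ x2))).card = 3 := by
      rw [hnot, Finset.card_insert_of_notMem (by simp [hx1a, hx21.symm]),
        Finset.card_insert_of_notMem (by simp [hx2a.symm]), Finset.card_singleton]
    rw [hO, h3] at hsplit
    rw [hc3, Finset.card_univ] at hcardsplit
    rw [← hsplit] at hsum
    have hgoal2 : (Finset.univ.filter (fun x => x ≠ x1 ∧ x ≠ a ∧ x ≠ x2)).card ≤ 3 * s - 1 := by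
      omega
    convert hgoal2
  · convert hdx1
  · convert hdx2
  · convert hdega

/-- A connected woven graph with an edge is a star `K_{1,s}` with `s ≥ 2` or a suitable
caterpillar. -/
theorem classification [Fintype V] (G : SimpleGraph V) (hG : G.Connected)
    (hE : ∃ x y, G.Adj x y) (hw : IsWoven G) :
    IsStar G ∨ ∃ s, IsSuitableCaterpillar G s := by
  classical
  obtain ⟨x0, y0, h0⟩ := hE
  have hconn := Conn.of_connected hG
  have hdeg : ∀ x : V, ∃ y, G.Adj x y := by
    apply hconn {x | ∃ y, G.Adj x y} ⟨x0, y0, h0⟩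
    rintro x _ y hxy
    exact ⟨x, hxy.symm⟩
  by_cases hint : HasInt G
  · right
    have hT : G.IsTree := ⟨hG, acyclic_of_woven G hG hw hdeg⟩
    obtain ⟨a, ha⟩ := depth2_of_woven G hT hdeg hw hint
    exact suitable_of_depth2 G hT hdeg hw hint a ha
  · left
    -- star
    by_cases hc : ∃ c y y', G.Adj c y ∧ G.Adj c y' ∧ y ≠ y'
    · obtain ⟨c, y, y', h1, h2, hne⟩ := hc
      have hleaf : ∀ x, G.Adj c x → ∀ z, G.Adj x z → z = c := by
        intro x hx z hxz
        by_contra hzc
        apply hint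
        by_cases hxy : x = y
        · subst hxy
          exact ⟨c, x, y', z, hx, h2, hne.symm, hxz, hzc⟩
        · exact ⟨c, x, y, z, hx, h1, fun h => hxy h.symm, hxz, hzc⟩
      have hall : ∀ x, x = c ∨ G.Adj c x := by
        apply hconn {x | x = c ∨ G.Adj c x} ⟨c, Or.inl rfl⟩
        rintro x (hx | hx) z hxz
        · subst hx; exact Or.inr hxz
        · exact Or.inl (hleaf x hx z hxz)
      refine ⟨?_, c, ?_⟩
      · have : ({c, y, y'} : Finset V).card = 3 := by
          rw [Finset.card_insert_of_notMem (by simp [h1.ne, h2.ne]),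
            Finset.card_insert_of_notMem (by simp [hne]), Finset.card_singleton]
        rw [← this]
        exact Finset.card_le_univ _
      · intro x z
        constructor
        · intro h
          refine ⟨h.ne, ?_⟩
          rcases hall x with hx | hx
          · exact Or.inl hx
          · exact Or.inr (hleaf x hx z h)
        · rintro ⟨hne', hx | hz⟩
          · subst hx
            rcases hall z with hz | hz
            · exact absurd hz.symm hne'
            · exact hz
          · subst hz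
            rcases hall x with hx | hx
            · exact absurd hx hne'
            · exact hx.symm
    · exfalso
      push Not at hc
      obtain ⟨ψ, τ, hf⟩ := glue G hdeg hw h0 {x0, y0} (Or.inl rfl) (Or.inr rfl)
        (by
          rintro x (rfl | hx) h
          · exact absurd rfl h.ne
          · exact hx)
        (by
          rintro x (hx | rfl) h
          · exact hx
          · exact absurd rfl h.ne)
      have hall : ∀ x, x = x0 ∨ x = y0 := by
        apply hconn {x | x = x0 ∨ x = y0} ⟨x0, Or.inl rfl⟩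
        rintro x (hx | hx) z hxz
        · subst hx; exact Or.inr (hc _ _ _ hxz h0)
        · subst hx; exact Or.inl (hc _ _ _ hxz h0.symm)
      have h1 := hf.hom _ _ h0
      rcases hall (ψ x0) with e1 | e1 <;> rcases hall (ψ y0) with e2 | e2
      · rw [e1, e2] at h1; exact h1.ne rfl
      · exact hf.miss _ _ h0 ⟨e1, e2⟩
      · exact hf.miss _ _ h0.symm ⟨e2, e1⟩
      · rw [e1, e2] at h1; exact h1.ne rfl

end Q32Woven
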