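import Pool.Agent.Q32.Woven.Defs

namespace Q32Woven

open SimpleGraph

variable {V : Type}

/-- The data of an embedding of `G` in the graph glued from copies of `G - pq` along `K`. -/
structure Fold (G : SimpleGraph V) (p q : V) (K : Set V) (ψ : V → V) (τ : V → ℕ) : Prop where
  hom : ∀ x y, G.Adj x y → G.Adj (ψ x) (ψ y)
  miss : ∀ x y, G.Adj x y → ¬ (ψ x = p ∧ ψ y = q)
  inj : ∀ x y, ψ x = ψ y → τ x = τ y → x = y
  uniq : ∀ x y, ψ x = ψ y → ψ x ∈ K → x = y
  same : ∀ x y, G.Adj x y → ψ x ∉ K → ψ y ∉ K → τ x = τ y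

/-- The glued graph (with the edge `pq`). -/
def glued (G : SimpleGraph V) (K : Set V) (N : ℕ) : SimpleGraph (V × Fin (N + 1)) where
  Adj a b := G.Adj a.1 b.1 ∧ (a.1 ∈ K → a.2 = 0) ∧ (b.1 ∈ K → b.2 = 0) ∧
    (a.1 ∈ K ∨ b.1 ∈ K ∨ a.2 = b.2)
  symm := ⟨by
    intro a b ⟨h1, h2, h3, h4⟩
    refine ⟨h1.symm, h3, h2, ?_⟩
    rcases h4 with h | h | h
    · exact Or.inr (Or.inl h)
    · exact Or.inl h
    · exact Or.inr (Or.inr h.symm)⟩
  loopless := ⟨fun a h => h.1.ne rfl⟩

theorem glue [Fintype V] (G : SimpleGraph V) (hdeg : ∀ x : V, ∃ y, G.Adj x y)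
    (hw : IsWoven G) {p q : V} (hpq : G.Adj p q) (K : Set V) (hp : p ∈ K) (hq : q ∈ K)
    (hKp : ∀ x ∈ K, G.Adj p x → x = q) (hKq : ∀ x ∈ K, G.Adj q x → x = p) :
    ∃ (ψ : V → V) (τ : V → ℕ), Fold G p q K ψ τ := by
  classical
  by_contra hno
  obtain ⟨k, hk⟩ := hw
  let F := glued G K (2 * k)
  let u : V × Fin (2 * k + 1) := (p, 0)
  let v : V × Fin (2 * k + 1) := (q, 0)
  have huv : F.Adj u v := ⟨hpq, fun _ => rfl, fun _ => rfl, Or.inl hp⟩
  -- every copy contains uv
  have hall : ∀ C : F.Subgraph, IsCopy G F C → C.Adj u v := by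
    intro C ⟨e⟩
    by_contra hC
    apply hno
    let f : V → V × Fin (2 * k + 1) := fun x => (e x).1
    have finj : Function.Injective f := fun x y h => e.injective (Subtype.ext h)
    have fadj : ∀ x y, G.Adj x y → C.Adj (f x) (f y) := by
      intro x y h
      have := e.map_rel_iff.2 h
      exact this
    have fadj' : ∀ x y, G.Adj x y → F.Adj (f x) (f y) := fun x y h => (fadj x y h).adj_sub
    have hz : ∀ x, (f x).1 ∈ K → (f x).2 = 0 := by
      intro x hx
      obtain ⟨y, hy⟩ := hdeg x
      exact (fadj' x y hy).2.1 hx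
    refine ⟨fun x => (f x).1, fun x => ((f x).2 : ℕ), ⟨?_, ?_, ?_, ?_, ?_⟩⟩
    · intro x y h
      exact (fadj' x y h).1
    · rintro x y h ⟨h1, h2⟩
      have h1' : (f x).1 = p := h1
      have h2' : (f y).1 = q := h2
      have e1 : f x = u := Prod.ext h1' (hz x (h1' ▸ hp))
      have e2 : f y = v := Prod.ext h2' (hz y (h2' ▸ hq))
      have := fadj x y h
      rw [e1, e2] at this
      exact hC this
    · intro x y h1 h2
      apply finj
      exact Prod.ext h1 (Fin.ext h2)
    · intro x y h1 h2
      have h1' : (f x).1 = (f y).1 := h1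
      have h2' : (f x).1 ∈ K := h2
      apply finj
      refine Prod.ext h1' ?_
      rw [hz x h2', hz y (h1' ▸ h2')]
    · intro x y h h1 h2
      have h1' : (f x).1 ∉ K := h1
      have h2' : (f y).1 ∉ K := h2
      rcases (fadj' x y h).2.2.2 with h3 | h3 | h3
      · exact absurd h3 h1'
      · exact absurd h3 h2'
      · exact congrArg Fin.val h3
  obtain ⟨Y, hY1, hY2, hY3, hY4⟩ := hk (V × Fin (2 * k + 1)) F u v huv hall
  -- the copies f_t
  let f : Fin (2 * k + 1) → V → V × Fin (2 * k + 1) := fun t x => (x, if x ∈ K then 0 else t)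
  have fadj : ∀ t x y, G.Adj x y → F.Adj (f t x) (f t y) := by
    intro t x y h
    refine ⟨h, ?_, ?_, ?_⟩
    · intro hx; simp only [f] at hx ⊢; rw [if_pos hx]
    · intro hx; simp only [f] at hx ⊢; rw [if_pos hx]
    · by_cases hx : x ∈ K
      · exact Or.inl hx
      · by_cases hy : y ∈ K
        · exact Or.inr (Or.inl hy)
        · right; right; simp only [f]; rw [if_neg hx, if_neg hy]
  have finj : ∀ t, Function.Injective (f t) := fun t x y h => congrArg Prod.fst h
  have hedge : ∀ t : Fin (2 * k + 1), ∃ e ∈ Y, ∃ y, y ∉ K ∧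
      (e = s(u, (y, t)) ∨ e = s(v, (y, t))) := by
    intro t
    let c : G.Copy F := ⟨⟨f t, fun {a b} h => fadj t a b h⟩, finj t⟩
    obtain ⟨e, heY, heC⟩ := hY4 c.toSubgraph ⟨c.isoToSubgraph⟩
    refine ⟨e, heY, ?_⟩
    induction e using Sym2.ind with
    | _ a b =>
      rw [Subgraph.mem_edgeSet] at heC
      simp only [Copy.toSubgraph, Subgraph.map_adj, Relation.Map, Subgraph.top_adj] at heC
      obtain ⟨x, y, hxy, hx, hy⟩ := heC
      have hx' : f t x = a := hx
      have hy' : f t y = b := hy
      obtain ⟨hE, hne, hinc⟩ := hY1 _ heY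
      subst hx'
      subst hy'
      -- symmetric helper
      have key : ∀ x y, G.Adj x y → s(f t x, f t y) ≠ s(u, v) →
          (u = f t x ∨ v = f t x) →
          ∃ y', y' ∉ K ∧ (s(f t x, f t y) = s(u, (y', t)) ∨ s(f t x, f t y) = s(v, (y', t))) := by
        intro x y hxy hne h
        rcases h with h | h
        · have hxp : x = p := (congrArg Prod.fst h).symm
          subst hxp
          have hyK : y ∉ K := by
            intro hy
            have := hKp y hy hxy
            subst this
            apply hne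
            simp only [f]
            rw [if_pos hp, if_pos hq]
          refine ⟨y, hyK, Or.inl ?_⟩
          rw [← h]
          simp only [f]
          rw [if_neg hyK]
        · have hxp : x = q := (congrArg Prod.fst h).symm
          subst hxp
          have hyK : y ∉ K := by
            intro hy
            have := hKq y hy hxy
            subst this
            apply hne
            simp only [f]
            rw [if_pos hp, if_pos hq]
            exact Sym2.eq_swap
          refine ⟨y, hyK, Or.inr ?_⟩
          rw [← h]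
          simp only [f]
          rw [if_neg hyK]
      have hcase : (u = f t x ∨ v = f t x) ∨ (u = f t y ∨ v = f t y) := by
        rcases hinc with h | h
        · rcases Sym2.mem_iff.1 h with h | h
          · exact Or.inl (Or.inl h)
          · exact Or.inr (Or.inl h)
        · rcases Sym2.mem_iff.1 h with h | h
          · exact Or.inl (Or.inr h)
          · exact Or.inr (Or.inr h)
      rcases hcase with h | h
      · exact key x y hxy hne h
      · have := key y x hxy.symm (by rw [Sym2.eq_swap]; exact hne) h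
        rw [Sym2.eq_swap] at this
        exact this
  choose g hgY y hyK hg using hedge
  have ginj : Function.Injective g := by
    intro t t' h
    have hyp : ∀ t, y t ≠ p := fun t h => hyK t (h ▸ hp)
    have hyq : ∀ t, y t ≠ q := fun t h => hyK t (h ▸ hq)
    rcases hg t with h1 | h1 <;> rcases hg t' with h2 | h2 <;> rw [h1, h2, Sym2.eq_iff] at h
    · rcases h with ⟨_, h⟩ | ⟨h, _⟩
      · exact congrArg Prod.snd h
      · exact absurd (congrArg Prod.fst h).symm (hyp t')
    · rcases h with ⟨_, h⟩ | ⟨h, _⟩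
      · exact congrArg Prod.snd h
      · exact absurd (congrArg Prod.fst h).symm (hyp t')
    · rcases h with ⟨_, h⟩ | ⟨h, _⟩
      · exact congrArg Prod.snd h
      · exact absurd (congrArg Prod.fst h).symm (hyq t')
    · rcases h with ⟨_, h⟩ | ⟨h, _⟩
      · exact congrArg Prod.snd h
      · exact absurd (congrArg Prod.fst h).symm (hyq t')
  have hcard : 2 * k + 1 ≤ Y.card := by
    have := Finset.card_le_card_of_injOn (s := (Finset.univ : Finset (Fin (2 * k + 1)))) (t := Y) g
      (fun t _ => hgY t) (fun a _ b _ h => ginj h)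
    simpa using this
  have hYs : Y ⊆ Y.filter (fun e => u ∈ e) ∪ Y.filter (fun e => v ∈ e) := by
    intro e he
    rcases (hY1 e he).2.2 with h | h
    · exact Finset.mem_union_left _ (Finset.mem_filter.2 ⟨he, h⟩)
    · exact Finset.mem_union_right _ (Finset.mem_filter.2 ⟨he, h⟩)
  have h1 := Finset.card_le_card hYs
  have h2 := Finset.card_union_le (Y.filter (fun e => u ∈ e)) (Y.filter (fun e => v ∈ e))
  omega

end Q32Woven
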