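import Pool.Agent.Q32.Woven.CoreC

namespace Q32Woven

open SimpleGraph

variable {V : Type}

theorem exists_closer {W : Type} {G : SimpleGraph W} (hG : G.Connected) (r x : W) (h : x ≠ r) :
    ∃ y, G.Adj x y ∧ G.dist r y < G.dist r x := by
  obtain ⟨w, hw⟩ := hG.exists_walk_length_eq_dist x r
  cases w with
  | nil => exact absurd rfl h
  | cons hadj w' =>
    rename_i y
    refine ⟨y, hadj, ?_⟩
    have := dist_le w'
    rw [dist_comm, dist_comm (u := r)]
    rw [Walk.length_cons] at hw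
    omega

theorem nonCut_of {W : Type} {G : SimpleGraph W} (r q : W) (_hrq : r ≠ q)
    (h : ∀ x, x ≠ q → x ≠ r → ∃ y, G.Adj x y ∧ y ≠ q ∧ G.dist r y < G.dist r x) :
    NonCut G q := by
  intro C hqC hne hC
  have hr : r ∈ C := by
    obtain ⟨x, hx⟩ := hne
    have key : ∀ n x, G.dist r x = n → x ∈ C → r ∈ C := by
      intro n
      induction n using Nat.strong_induction_on with
      | _ n ih =>
        intro x hxn hx
        by_cases hxr : x = r
        · exact hxr ▸ hx
        · have hxq : x ≠ q := fun h => hqC (h ▸ hx)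
          obtain ⟨y, hxy, hyq, hlt⟩ := h x hxq hxr
          exact ih _ (hxn ▸ hlt) y rfl (hC x hx y hxy hyq)
    exact key _ x rfl hx
  have key : ∀ n y, G.dist r y = n → y ≠ q → y ∈ C := by
    intro n
    induction n using Nat.strong_induction_on with
    | _ n ih =>
      intro y hyn hyq
      by_cases hyr : y = r
      · exact hyr ▸ hr
      · obtain ⟨z, hyz, hzq, hlt⟩ := h y hyq hyr
        exact hC z (ih _ (hyn ▸ hlt) z rfl hzq) y hyz.symm hyq
  exact fun y hy => key _ y rfl hy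

theorem exists_nonCut_pair {W : Type} [Finite W] {G : SimpleGraph W} (hG : G.Connected)
    (h2 : ∀ x, ∃ z₁ z₂, z₁ ≠ z₂ ∧ G.Adj x z₁ ∧ G.Adj x z₂) :
    ∃ p q, G.Adj p q ∧ NonCut G p ∧ NonCut G q := by
  have := hG.nonempty
  obtain ⟨r⟩ := hG.nonempty
  obtain ⟨p, hp⟩ := Finite.exists_max (fun x => G.dist r x)
  have far : ∀ x, G.dist r x = G.dist r p → NonCut G x := by
    intro x hx
    have hxr : r ≠ x := by
      rintro rfl
      obtain ⟨z, _, _, hz, _⟩ := h2 r
      have h1 := hG.pos_dist_of_ne hz.ne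
      have h3 := hp z
      rw [← hx, dist_self] at h3
      omega
    apply nonCut_of r x hxr
    intro y _ hyr
    obtain ⟨y', hy', hlt⟩ := exists_closer hG r y hyr
    refine ⟨y', hy', ?_, hlt⟩
    rintro rfl
    have := hp y
    omega
  by_cases hcase : ∃ x y, G.Adj x y ∧ G.dist r x = G.dist r p ∧ G.dist r y = G.dist r p
  · obtain ⟨x, y, hxy, hx, hy⟩ := hcase
    exact ⟨x, y, hxy, far x hx, far y hy⟩
  · push Not at hcase
    obtain ⟨q, z₂, hne, hq, hz₂⟩ := h2 p
    have lev : ∀ x y, G.Adj x y → G.dist r x = G.dist r p → G.dist r y + 1 = G.dist r p := by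
      intro x y hxy hx
      have h1 := hcase x y hxy hx
      have h3 := hp y
      have h4 := hxy.diff_dist_adj (u := r)
      omega
    have hql := lev p q hq rfl
    have hqr : r ≠ q := by
      rintro rfl
      have := lev p z₂ hz₂ rfl
      rw [dist_self] at hql
      have h5 : G.dist r z₂ = 0 := by omega
      have := hG.pos_dist_of_ne hne
      omega
    refine ⟨p, q, hq, far p rfl, nonCut_of r q hqr ?_⟩
    intro x hxq hxr
    by_cases hx : G.dist r x = G.dist r p
    · obtain ⟨a, b, hab, ha, hb⟩ := h2 x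
      have ha' := lev x a ha hx
      have hb' := lev x b hb hx
      by_cases haq : a = q
      · refine ⟨b, hb, ?_, by omega⟩
        rintro rfl
        exact hab haq
      · exact ⟨a, ha, haq, by omega⟩
    · obtain ⟨y, hy, hlt⟩ := exists_closer hG r x hxr
      refine ⟨y, hy, ?_, hlt⟩
      rintro rfl
      have := hp x
      omega

/-- every vertex of `S` has two neighbours in `S` -/
def CoreSet (G : SimpleGraph V) (S : Set V) : Prop :=
  ∀ y ∈ S, ∃ z₁ z₂, z₁ ≠ z₂ ∧ z₁ ∈ S ∧ z₂ ∈ S ∧ G.Adj y z₁ ∧ G.Adj y z₂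

theorem no_core [Fintype V] (G : SimpleGraph V) (hG : G.Connected) (hw : IsWoven G)
    (hdeg : ∀ x : V, ∃ y, G.Adj x y) (S : Set V) (hne : S.Nonempty) (hS : CoreSet G S) :
    False := by
  classical
  let U : Set V := {x | ∃ S : Set V, CoreSet G S ∧ x ∈ S}
  have hmax : ∀ S, CoreSet G S → S ⊆ U := fun S hS x hx => ⟨S, hS, hx⟩
  have hU : CoreSet G U := by
    rintro y ⟨S, hS, hy⟩
    obtain ⟨z₁, z₂, h1, h2, h3, h4, h5⟩ := hS y hy
    exact ⟨z₁, z₂, h1, hmax S hS h2, hmax S hS h3, h4, h5⟩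
  obtain ⟨x₀, hx₀⟩ := hne
  have hx₀U : x₀ ∈ U := hmax S hS hx₀
  -- paths between vertices of U stay in U
  have hpath : ∀ x y, x ∈ U → y ∈ U → ∀ w : G.Walk x y, w.IsPath → ∀ v ∈ w.support, v ∈ U := by
    intro x y hx hy w hw v hv
    have hcs : CoreSet G (U ∪ {v | v ∈ w.support}) := by
      rintro v (hv | hv)
      · obtain ⟨z₁, z₂, h1, h2, h3, h4, h5⟩ := hU v hv
        exact ⟨z₁, z₂, h1, Or.inl h2, Or.inl h3, h4, h5⟩
      · obtain ⟨i, hi, hil⟩ := Walk.mem_support_iff_exists_getVert.1 hv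
        by_cases h0 : i = 0
        · subst h0
          rw [Walk.getVert_zero] at hi
          subst hi
          obtain ⟨z₁, z₂, h1, h2, h3, h4, h5⟩ := hU x hx
          exact ⟨z₁, z₂, h1, Or.inl h2, Or.inl h3, h4, h5⟩
        by_cases hl : i = w.length
        · subst hl
          rw [Walk.getVert_length] at hi
          subst hi
          obtain ⟨z₁, z₂, h1, h2, h3, h4, h5⟩ := hU y hy
          exact ⟨z₁, z₂, h1, Or.inl h2, Or.inl h3, h4, h5⟩
        · have ha := w.adj_getVert_succ (i := i - 1) (by omega)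
          rw [show i - 1 + 1 = i by omega, hi] at ha
          have hb := w.adj_getVert_succ (i := i) (by omega)
          rw [hi] at hb
          refine ⟨w.getVert (i - 1), w.getVert (i + 1), ?_, Or.inr ?_, Or.inr ?_, ha.symm, hb⟩
          · intro h
            have e1 : (i - 1) ∈ {j | j ≤ w.length} := by
              change i - 1 ≤ w.length
              omega
            have e2 : (i + 1) ∈ {j | j ≤ w.length} := by
              change i + 1 ≤ w.length
              omega
            have := hw.getVert_injOn e1 e2 h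
            omega
          · exact Walk.getVert_mem_support _ _
          · exact Walk.getVert_mem_support _ _
    exact hmax _ hcs (Or.inr hv)
  -- the induced graph on U is connected
  have hconn : (G.induce U).Connected := by
    have : Nonempty U := ⟨⟨x₀, hx₀U⟩⟩
    refine ⟨?_⟩
    intro x y
    obtain ⟨w, hw⟩ := hG.exists_isPath x.1 y.1
    exact ⟨w.induce U (hpath x.1 y.1 x.2 y.2 w hw)⟩
  have h2 : ∀ x : U, ∃ z₁ z₂ : U, z₁ ≠ z₂ ∧ (G.induce U).Adj x z₁ ∧ (G.induce U).Adj x z₂ := by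
    intro x
    obtain ⟨z₁, z₂, h1, h2, h3, h4, h5⟩ := hU x.1 x.2
    exact ⟨⟨z₁, h2⟩, ⟨z₂, h3⟩, fun h => h1 (congrArg Subtype.val h), h4, h5⟩
  obtain ⟨p, q, hpq, hp, hq⟩ := exists_nonCut_pair hconn h2
  have hpq' : G.Adj p.1 q.1 := hpq
  obtain ⟨ψ, τ, hf⟩ := glue G hdeg hw hpq' {p.1, q.1} (Or.inl rfl) (Or.inr rfl)
    (by
      rintro x (rfl | hx) h
      · exact absurd rfl h.ne
      · exact hx)
    (by
      rintro x (hx | rfl) h
      · exact hx
      · exact absurd rfl h.ne)
  -- ψ maps U to U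
  have hψU : ∀ x, x ∈ U → ψ x ∈ U := by
    have hcs : CoreSet G (U ∪ ψ '' U) := by
      rintro v (hv | ⟨x, hx, rfl⟩)
      · obtain ⟨z₁, z₂, h1, h2, h3, h4, h5⟩ := hU v hv
        exact ⟨z₁, z₂, h1, Or.inl h2, Or.inl h3, h4, h5⟩
      · by_cases hK : ψ x ∈ ({p.1, q.1} : Set V)
        · have hxU : ψ x ∈ U := by
            rcases hK with h | h
            · rw [h]; exact p.2
            · rw [h]; exact q.2
          obtain ⟨z₁, z₂, h1, h2, h3, h4, h5⟩ := hU _ hxU
          exact ⟨z₁, z₂, h1, Or.inl h2, Or.inl h3, h4, h5⟩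
        · obtain ⟨z₁, z₂, h1, h2, h3, h4, h5⟩ := hU x hx
          exact ⟨ψ z₁, ψ z₂, fun h => h1 (hf.locInj hK h4 h5 h), Or.inr ⟨z₁, h2, rfl⟩,
            Or.inr ⟨z₂, h3, rfl⟩, hf.hom _ _ h4, hf.hom _ _ h5⟩
    exact fun x hx => hmax _ hcs (Or.inr ⟨x, hx, rfl⟩)
  let ψ' : U → U := fun x => ⟨ψ x.1, hψU x.1 x.2⟩
  let τ' : U → ℕ := fun x => τ x.1
  have hmem : ∀ x : U, ψ' x ∈ ({p, q} : Set U) ↔ ψ x.1 ∈ ({p.1, q.1} : Set V) := by
    intro x
    simp only [Set.mem_insert_iff, Set.mem_singleton_iff, ψ', Subtype.ext_iff]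
  have hf' : Fold (G.induce U) p q {p, q} ψ' τ' :=
    { hom := fun x y h => hf.hom x.1 y.1 h
      miss := fun x y h h' => hf.miss x.1 y.1 h
        ⟨congrArg Subtype.val h'.1, congrArg Subtype.val h'.2⟩
      inj := fun x y h1 h2 => Subtype.ext (hf.inj x.1 y.1 (congrArg Subtype.val h1) h2)
      uniq := fun x y h1 h2 => Subtype.ext
        (hf.uniq x.1 y.1 (congrArg Subtype.val h1) ((hmem x).1 h2))
      same := fun x y h h1 h2 => hf.same x.1 y.1 h (fun h' => h1 ((hmem x).2 h'))
        (fun h' => h2 ((hmem y).2 h')) }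
  exact noFold (Conn.of_connected hconn) hpq hp hq hf'

theorem acyclic_of_woven [Fintype V] (G : SimpleGraph V) (hG : G.Connected) (hw : IsWoven G)
    (hdeg : ∀ x : V, ∃ y, G.Adj x y) : G.IsAcyclic := by
  intro v c hc
  refine no_core G hG hw hdeg {x | x ∈ c.support} ⟨v, c.start_mem_support⟩ ?_
  intro y hy
  have h2 := hc.ncard_neighborSet_toSubgraph_eq_two hy
  obtain ⟨a, b, hab, heq⟩ := Set.ncard_eq_two.1 h2
  have ha : c.toSubgraph.Adj y a := by
    have : a ∈ c.toSubgraph.neighborSet y := by rw [heq]; exact Or.inl rfl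
    exact this
  have hb : c.toSubgraph.Adj y b := by
    have : b ∈ c.toSubgraph.neighborSet y := by rw [heq]; exact Or.inr rfl
    exact this
  refine ⟨a, b, hab, ?_, ?_, ha.adj_sub, hb.adj_sub⟩
  · exact c.mem_verts_toSubgraph.1 (c.toSubgraph.edge_vert ha.symm)
  · exact c.mem_verts_toSubgraph.1 (c.toSubgraph.edge_vert hb.symm)

end Q32Woven
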