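import Pool.Agent.Q32.Woven.NoCore

namespace Q32Woven

open SimpleGraph

variable {V : Type}

/-- all vertices at distance two from `a` are leaves -/
def Depth2 (G : SimpleGraph V) (a : V) : Prop :=
  ∀ x, G.Adj a x → ∀ y, G.Adj x y → y ≠ a → ∀ y', G.Adj y y' → y' = x

/-- the graph has an edge both of whose ends have another neighbour -/
def HasInt (G : SimpleGraph V) : Prop :=
  ∃ x y x' y', G.Adj x y ∧ G.Adj x x' ∧ x' ≠ y ∧ G.Adj y y' ∧ y' ≠ x

theorem uniqueCloser {G : SimpleGraph V} (hT : G.IsTree) (r : V) {x y y' : V}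
    (h1 : G.Adj x y) (h2 : G.Adj x y') (h3 : G.dist r y < G.dist r x)
    (h4 : G.dist r y' < G.dist r x) : y = y' := by
  have key : ∀ y, G.Adj x y → G.dist r y < G.dist r x →
      ∃ w : G.Walk x r, w.IsPath ∧ w.snd = y := by
    intro y hy hlt
    obtain ⟨w, hw⟩ := hT.connected.exists_walk_length_eq_dist y r
    refine ⟨Walk.cons hy w, ?_, ?_⟩
    · apply Walk.isPath_of_length_eq_dist
      rw [Walk.length_cons, hw]
      have := dist_le (Walk.cons hy w)
      rw [Walk.length_cons, hw] at this
      rw [dist_comm (u := r), dist_comm (u := r)] at hlt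
      omega
    · simp
  obtain ⟨w1, hw1, e1⟩ := key y h1 h3
  obtain ⟨w2, hw2, e2⟩ := key y' h2 h4
  have := (hT.existsUnique_path x r).unique hw1 hw2
  rw [← e1, ← e2, this]

theorem exists_col {G : SimpleGraph V} [Fintype V] (hT : G.IsTree) :
    ∃ col : V → Bool, (∀ x y, G.Adj x y → col x ≠ col y) ∧
      (Finset.univ.filter (fun x => col x = true)).card ≤
        (Finset.univ.filter (fun x => col x = false)).card := by
  obtain ⟨r⟩ := hT.connected.nonempty
  have h0 : ∃ col : V → Bool, ∀ x y, G.Adj x y → col x ≠ col y := by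
    refine ⟨fun x => decide (G.dist r x % 2 = 0), ?_⟩
    intro x y hxy h
    have := hT.dist_eq_dist_add_one_of_adj r hxy
    have h' : (G.dist r x % 2 = 0) ↔ (G.dist r y % 2 = 0) := by simpa using h
    omega
  obtain ⟨col, hcol⟩ := h0
  rcases le_total (Finset.univ.filter (fun x => col x = true)).card
    (Finset.univ.filter (fun x => col x = false)).card with h | h
  · exact ⟨col, hcol, h⟩
  · refine ⟨fun x => !(col x), ?_, ?_⟩
    · intro x y hxy he
      apply hcol x y hxy
      simpa using he
    · simpa using h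

theorem depth2_of_woven [Fintype V] (G : SimpleGraph V) (hT : G.IsTree)
    (hdeg : ∀ x : V, ∃ y, G.Adj x y) (hw : IsWoven G) (hint : HasInt G) :
    ∃ a, Depth2 G a := by
  classical
  have hconn := Conn.of_connected hT.connected
  obtain ⟨col, hcol, hcard⟩ := exists_col hT
  have hcolT : ∀ x y, G.Adj x y → col x = true → col y = false := by
    intro x y h hx
    have := hcol x y h
    rw [hx] at this
    cases hy : col y
    · rfl
    · exact absurd hy.symm this
  have hcolF : ∀ x y, G.Adj x y → col x = false → col y = true := by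
    intro x y h hx
    have := hcol x y h
    rw [hx] at this
    cases hy : col y
    · exact absurd hy.symm this
    · rfl
  -- starting pair
  obtain ⟨r, z0, r', z0', hr0, hr1, hr2, hr3, hr4, hcr⟩ : ∃ x y x' y', G.Adj x y ∧ G.Adj x x' ∧
      x' ≠ y ∧ G.Adj y y' ∧ y' ≠ x ∧ col x = true := by
    obtain ⟨x, y, x', y', h1, h2, h3, h4, h5⟩ := hint
    cases hc : col x
    · exact ⟨y, x, y', x', h1.symm, h4, h5, h2, h3, hcolF x y h1 hc⟩
    · exact ⟨x, y, x', y', h1, h2, h3, h4, h5, hc⟩
  let P : V × V → Prop := fun t => col t.1 = true ∧ G.Adj t.1 t.2 ∧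
    (∃ w', G.Adj t.1 w' ∧ w' ≠ t.2) ∧ (∃ z', G.Adj t.2 z' ∧ z' ≠ t.1) ∧
    G.dist r t.2 = G.dist r t.1 + 1
  have hP0 : P (r, z0) := by
    refine ⟨hcr, hr0, ⟨r', hr1, hr2⟩, ⟨z0', hr3, hr4⟩, ?_⟩
    simp only [dist_self, Nat.zero_add]
    exact dist_eq_one_iff_adj.2 hr0
  have : Nonempty {t : V × V // P t} := ⟨⟨_, hP0⟩⟩
  obtain ⟨⟨⟨w, z⟩, hwz⟩, hmax⟩ := Finite.exists_max (fun t : {t : V × V // P t} => G.dist r t.1.2)
  obtain ⟨hcw, hadj, ⟨w', hw', hw'z⟩, ⟨z', hz', hz'w⟩, hdist⟩ := hwz
  simp only at hcw hadj hw' hw'z hz' hz'w hdist hmax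
  have hcz : col z = false := hcolT w z hadj hcw
  -- S1
  have S1 : ∀ x, G.Adj z x → x ≠ w → ∀ y, G.Adj x y → y ≠ z → ∀ y', G.Adj y y' → y' = x := by
    intro x hzx hxw y hxy hyz y' hyy'
    by_contra hy'x
    have d1 : G.dist r x = G.dist r z + 1 := by
      rcases hT.dist_eq_dist_add_one_of_adj r hzx with h | h
      · exfalso
        exact hxw (uniqueCloser hT r hzx hadj.symm (by omega) (by omega))
      · exact h
    have d2 : G.dist r y = G.dist r x + 1 := by
      rcases hT.dist_eq_dist_add_one_of_adj r hxy with h | h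
      · exfalso
        exact hyz (uniqueCloser hT r hxy hzx.symm (by omega) (by omega))
      · exact h
    have hP : P (x, y) := ⟨hcolF z x hzx hcz, hxy, ⟨z, hzx.symm, fun h => hyz h.symm⟩,
      ⟨y', hyy', hy'x⟩, d2⟩
    have := hmax ⟨(x, y), hP⟩
    simp only at this
    omega
  let K : Set V := {k | k = z ∨ (col k = true ∧ (k = w ∨ ¬ G.Adj k z))}
  obtain ⟨ψ, τ, hf⟩ := glue G hdeg hw hadj K (Or.inr ⟨hcw, Or.inl rfl⟩) (Or.inl rfl)
    (by
      rintro x (hx | ⟨hx, _⟩) h
      · exact hx
      · have := hcolT w x h hcw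
        rw [this] at hx
        exact absurd hx (by decide))
    (by
      rintro x (hx | ⟨_, hx | hx⟩) h
      · subst hx; exact absurd rfl h.ne
      · exact hx
      · exact absurd h.symm hx)
  let T : Set V := {t | t = z ∨ (G.Adj z t ∧ t ≠ w) ∨ ∃ x, G.Adj z x ∧ x ≠ w ∧ G.Adj x t ∧ t ≠ z}
  have hTcl : ∀ x y, x ∈ T → G.Adj x y → ¬ (x = z ∧ y = w) → y ∈ T := by
    rintro x y (hx | ⟨hx, hxw⟩ | ⟨x0, h1, h2, h3, h4⟩) hxy hno
    · subst hx
      exact Or.inr (Or.inl ⟨hxy, fun h => hno ⟨rfl, h⟩⟩)
    · by_cases hyz : y = z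
      · exact Or.inl hyz
      · exact Or.inr (Or.inr ⟨x, hx, hxw, hxy, hyz⟩)
    · have := S1 x0 h1 h2 x h3 h4 y hxy
      subst this
      exact Or.inr (Or.inl ⟨h1, h2⟩)
  have hψcl : ∀ x y, ψ x ∈ T → G.Adj x y → ψ y ∈ T := by
    intro x y hx hxy
    refine hTcl _ _ hx (hf.hom _ _ hxy) ?_
    rintro ⟨h1, h2⟩
    exact hf.miss y x hxy.symm ⟨h2, h1⟩
  have hzT' : z' ∈ T := Or.inr (Or.inl ⟨hz', hz'w⟩)
  have hcz' : col z' = true := hcolF z z' hz' hcz
  by_cases hcase : ∃ x, ψ x ∈ T
  · have hallT : ∀ x, ψ x ∈ T := hconn {x | ψ x ∈ T} hcase (fun x hx y hxy => hψcl x y hx hxy)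
    -- elements of T other than z are outside K
    have hTK : ∀ t ∈ T, t ≠ z → t ∉ K := by
      rintro t (ht | ⟨ht, htw⟩ | ⟨x0, h1, h2, h3, h4⟩) htz hK
      · exact htz ht
      · rcases hK with h | ⟨_, h | h⟩
        · exact htz h
        · exact htw h
        · exact h ht.symm
      · have c1 := hcolF z x0 h1 hcz
        have c2 := hcolT x0 t h3 c1
        rcases hK with h | ⟨h, _⟩
        · exact htz h
        · rw [c2] at h; exact absurd h (by decide)
    by_cases ha : ∃ a, ψ a = z
    · obtain ⟨a, ha⟩ := ha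
      refine ⟨a, ?_⟩
      intro x hax y hxy hya y' hyy'
      have h1 : G.Adj z (ψ x) := ha ▸ hf.hom _ _ hax
      have h2 : ψ x ≠ w := fun h => hf.miss x a hax.symm ⟨h, ha⟩
      have h3 : ψ y ≠ z := fun h => hya (hf.uniq y a (h.trans ha.symm) (by rw [h]; exact Or.inl rfl))
      have h4 := S1 (ψ x) h1 h2 (ψ y) (hf.hom _ _ hxy) h3 (ψ y') (hf.hom _ _ hyy')
      exact (hf.locInj (hTK _ (hallT y) h3) hyy' hxy.symm h4)
    · exfalso
      push Not at ha
      have hKn : ∀ x, ψ x ∉ K := fun x => hTK _ (hallT x) (ha x)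
      -- one of ψ w, ψ z is a grandchild
      have main : ∀ u v u', G.Adj u v → G.Adj u u' → u' ≠ v →
          (∃ x, G.Adj z x ∧ x ≠ w ∧ G.Adj x (ψ u) ∧ ψ u ≠ z) → False := by
        rintro u v u' huv huu' hne ⟨x, h1, h2, h3, h4⟩
        have e1 := S1 x h1 h2 _ h3 h4 _ (hf.hom _ _ huv)
        have e2 := S1 x h1 h2 _ h3 h4 _ (hf.hom _ _ huu')
        exact hne (hf.locInj (hKn u) huu' huv (e2.trans e1.symm))
      rcases hallT w with h | ⟨h, _⟩ | h
      · exact ha w h
      · rcases hallT z with h' | ⟨h', _⟩ | h'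
        · exact ha z h'
        · have c1 := hcolF z _ h hcz
          have c2 := hcolF z _ h' hcz
          exact hcol _ _ (hf.hom _ _ hadj) (c1.trans c2.symm)
        · exact main z w z' hadj.symm hz' hz'w h'
      · exact main w z w' hadj hw' hw'z h
  · exfalso
    push Not at hcase
    have hTrue : ∀ x, col (ψ x) = true → ψ x ∈ K := by
      intro x hx
      refine Or.inr ⟨hx, ?_⟩
      by_contra hno
      push Not at hno
      exact hcase x (Or.inr (Or.inl ⟨hno.2.symm, hno.1⟩))
    have hψz' : ∀ x, ψ x ≠ z' := fun x h => hcase x (h ▸ hzT')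
    let X := Finset.univ.filter (fun x => col x = true)
    let Y := Finset.univ.filter (fun x => col x = false)
    have hXe : (X.erase z').card < X.card := Finset.card_erase_lt_of_mem (by simp [X, hcz'])
    by_cases hpres : ∃ x, col (ψ x) = col x
    · have hall : ∀ x, col (ψ x) = col x := by
        apply hconn {x | col (ψ x) = col x} hpres
        intro x hx y hxy
        have h1 := hcol _ _ (hf.hom _ _ hxy)
        have h2 := hcol _ _ hxy
        have hx' : col (ψ x) = col x := hx
        change col (ψ y) = col y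
        cases h3 : col (ψ x) <;> cases h4 : col (ψ y) <;> cases h5 : col y <;>
          simp_all
      have := Finset.card_le_card_of_injOn (s := X) (t := X.erase z') ψ (by
        intro x hx
        have hx' : col x = true := by simpa [X] using hx
        have : col (ψ x) = true := by rw [hall x, hx']
        exact Finset.mem_coe.2 (Finset.mem_erase.2 ⟨hψz' x, by simp [X, this]⟩)) (by
        intro x hx y hy h
        have hx' : col x = true := by simpa [X] using hx
        exact hf.uniq x y h (hTrue x (by rw [hall x, hx'])))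
      omega
    · push Not at hpres
      have := Finset.card_le_card_of_injOn (s := Y) (t := X.erase z') ψ (by
        intro x hx
        have hx' : col x = false := by simpa [Y] using hx
        have h1 := hpres x
        have : col (ψ x) = true := by
          cases h : col (ψ x)
          · rw [h, hx'] at h1; exact absurd rfl h1
          · rfl
        exact Finset.mem_coe.2 (Finset.mem_erase.2 ⟨hψz' x, by simp [X, this]⟩)) (by
        intro x hx y hy h
        have hx' : col x = false := by simpa [Y] using hx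
        have h1 := hpres x
        have : col (ψ x) = true := by
          cases h : col (ψ x)
          · rw [h, hx'] at h1; exact absurd rfl h1
          · rfl
        exact hf.uniq x y h (hTrue x this))
      have hXY : X.card ≤ Y.card := hcard
      omega

end Q32Woven
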